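import Pool.Agent.L0h32.UX.Stm

set_option autoImplicit false
set_option linter.all false

/-!
# Weight functions for all words
-/

namespace Pool.Agent.L0h29.UX

open Pool.Agent.L0h32.UX
open Pool.Agent.H630R2.LA (nr)

section

variable {P : Type} {S : P → Prop} {Eg Eg' : ℕ → P → P → Prop} {wt : ℕ → P → P → ℕ}

theorem gpw_congr {l : ℕ} (hE : ∀ j < l, ∀ p q, Eg j p q ↔ Eg' j p q) :
    ∀ j ≤ l, ∀ p v, GPw S Eg wt j p v ↔ GPw S Eg' wt j p v := by
  intro j
  induction j with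
  | zero => intro _ p v; exact Iff.rfl
  | succ j ih =>
    intro hj q v
    simp only [GPw]
    constructor
    · rintro ⟨p, u, h1, h2, h3⟩
      exact ⟨p, u, (ih (by omega) p u).1 h1, (hE j (by omega) p q).1 h2, h3⟩
    · rintro ⟨p, u, h1, h2, h3⟩
      exact ⟨p, u, (ih (by omega) p u).2 h1, (hE j (by omega) p q).2 h2, h3⟩

theorem gwp_le {j l : ℕ} {p q : P} {v : ℕ} (h : GWp Eg wt j p l q v) : j ≤ l := by
  induction h with
  | refl => exact le_rfl
  | cons j l p p' q v he hw ih => omega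

theorem gwp_mono {j l : ℕ} {p q : P} {v : ℕ} (h : GWp Eg wt j p l q v)
    (hE : ∀ j < l, ∀ p q, Eg j p q → Eg' j p q) : GWp Eg' wt j p l q v := by
  induction h with
  | refl j p => exact .refl j p
  | cons j l p p' q v he hw ih =>
    exact .cons j l p p' q v (hE j (gwp_le hw) p p' he) (ih hE)

theorem gdm_congr {l : ℕ} (hE : ∀ j < l, ∀ p q, Eg j p q ↔ Eg' j p q) (z : P) :
    GDm S Eg wt l z = GDm S Eg' wt l z := by
  unfold GDm
  congr 1
  ext v
  exact gpw_congr hE l le_rfl z v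

theorem gon_mono {l : ℕ} (hE : ∀ j < l, ∀ p q, Eg j p q ↔ Eg' j p q) {j : ℕ} (hj : j ≤ l) {p z : P}
    (h : GOn S Eg wt j p l z) : GOn S Eg' wt j p l z := by
  obtain ⟨v, r, h1, h2, h3⟩ := h
  exact ⟨v, r, (gpw_congr hE j hj p v).1 h1, gwp_mono h2 fun j hj p q => (hE j hj p q).1,
    by rw [h3, gdm_congr hE]⟩

theorem guq_mono {l : ℕ} (hE : ∀ j < l, ∀ p q, Eg j p q ↔ Eg' j p q) {z : P}
    (h : GUq S Eg wt l z) : GUq S Eg' wt l z := by
  intro j hj p p' h1 h2
  have hE' : ∀ j < l, ∀ p q, Eg' j p q ↔ Eg j p q := fun j hj p q => (hE j hj p q).symm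
  exact h j hj p p' (gon_mono hE' hj h1) (gon_mono hE' hj h2)

end

theorem t_WGT (hWG : S_WG) : S_WGT := by
  classical
  intro A _ h rel p0
  cases nonempty_fintype A
  have hcard : Fintype.card ((Fin (2 ^ h) → Bool) × (Fin (2 * 2 ^ h) → Option A)) <
      2 ^ KB h (Nat.card A) := by
    rw [Fintype.card_prod, Fintype.card_fun, Fintype.card_fun, Fintype.card_bool,
      Fintype.card_option, Fintype.card_fin, Fintype.card_fin, Nat.card_eq_fintype_card]
    have h1 : (Fintype.card A + 1) ^ (2 * 2 ^ h) ≤ 2 ^ (2 * 2 ^ h * (Fintype.card A + 1)) := by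
      calc (Fintype.card A + 1) ^ (2 * 2 ^ h) ≤ (2 ^ (Fintype.card A + 1)) ^ (2 * 2 ^ h) :=
            Nat.pow_le_pow_left (Nat.lt_two_pow_self).le _
        _ = 2 ^ (2 * 2 ^ h * (Fintype.card A + 1)) := by rw [← pow_mul, mul_comm]
    calc 2 ^ 2 ^ h * (Fintype.card A + 1) ^ (2 * 2 ^ h)
        ≤ 2 ^ 2 ^ h * 2 ^ (2 * 2 ^ h * (Fintype.card A + 1)) := Nat.mul_le_mul_left _ h1
      _ = 2 ^ (2 ^ h + 2 * 2 ^ h * (Fintype.card A + 1)) := (pow_add _ _ _).symm
      _ < 2 ^ KB h (Fintype.card A) := by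
        unfold KB
        exact Nat.pow_lt_pow_right (by norm_num) (Nat.lt_succ_self _)
  obtain ⟨W, hW, hu⟩ := hWG (Fin (2 ^ h)) ((Fin (2 ^ h) → Bool) × (Fin (2 * 2 ^ h) → Option A))
    (2 * 2 ^ h) (KB h (Nat.card A)) (fun τ p => τ.1 p = true)
    (fun τ l p q => ∃ (hl : l < 2 * 2 ^ h) (a : A), τ.2 ⟨l, hl⟩ = some a ∧ rel a p q = true) hcard
  refine ⟨W, fun i j p q => ?_, ?_⟩
  · have := hW i j p q
    rw [Fintype.card_fin] at this
    exact this
  · intro w β L hL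
    obtain ⟨i, hi, hg⟩ := hu (fun p => decide (nr h rel p0 w β p), fun l => w[β + l.val]?)
    refine ⟨i, hi, fun l hl z => ?_⟩
    have h1 := hg l (hl.trans hL) z
    have h2 : (fun p => (fun p => decide (nr h rel p0 w β p)) p = true) = nr h rel p0 w β := by
      funext p
      simp
    simp only [decide_eq_true_eq] at h1
    refine guq_mono (fun j hj p q => ?_) h1
    constructor
    · rintro ⟨_, a, h3, h4⟩
      exact ⟨a, h3, h4⟩
    · rintro ⟨a, h3, h4⟩
      exact ⟨by omega, a, h3, h4⟩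

end Pool.Agent.L0h29.UX
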